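import Pool.Agent.H48.ER.Targets

/-!
# er_modules, row CLA: first case of CLI
-/

set_option autoImplicit false

namespace Pool.Agent.H37.ER

open Pool.Agent.H48.ER

/-- four different vertices are not among three -/
theorem four_three {V : Type} {x y z p q r s : V} (hp : p = x ∨ p = y ∨ p = z)
    (hq : q = x ∨ q = y ∨ q = z) (hr : r = x ∨ r = y ∨ r = z) (hs : s = x ∨ s = y ∨ s = z)
    (h1 : p ≠ q) (h2 : p ≠ r) (h3 : p ≠ s) (h4 : q ≠ r) (h5 : q ≠ s) (h6 : r ≠ s) : False := by
  rcases hp with rfl | rfl | rfl <;> rcases hq with rfl | rfl | rfl <;>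
    rcases hr with rfl | rfl | rfl <;> rcases hs with rfl | rfl | rfl <;> simp_all

theorem pf_CLA (hM3 : T_M3) (hDES : T_DES) (hPF : T_PF) (hSB3 : T_SB3)
    (hCLS : T_CLS) : T_CLA := by
  intro V _ G S H f t u a b n P c J i hX ht hch hut hPc hiJ hti hs
  obtain ⟨hJ, hcb, u1, hu1, hu1u, hdn1, hkb⟩ := hCLS V G S H f t u a b n P c J hX hch hut hPc hs
  obtain ⟨-, -, d3, d4, -, d6⟩ := hDES V H f hX.peo t
  have dle : ∀ v, par H f v t → ∀ w ∈ dn H f v, f w < f t := by
    intro v hv w hw
    exact lt_of_le_of_lt ((hDES V H f hX.peo v).1 w hw) (d3 v hv).2.1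
  obtain ⟨p1, p2, -, -, p5, p6, -, -, -⟩ := hPF V G a b n P c J _ _ hPc
  have upg : ∀ v, par H f v t → ∀ w ∈ upper H f v, f t ≤ f w := by
    intro v hv w hw
    rcases (d3 v hv).2.2.2 hw with h | h
    · rw [h]
    · exact le_of_lt h.2
  have htQ : t ∈ upper H f u := (d3 u hut).2.2.1
  -- the later neighbours of `t` outside of `Q`
  have hsub : (upper H f t \ upper H f u).Subsingleton := by
    have h1 : (upper H f u \ {t}) ⊆ upper H f t := by
      rintro w ⟨hw, hwt⟩
      rcases (d3 u hut).2.2.2 hw with h | h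
      · exact absurd h hwt
      · exact h
    have h2 : (upper H f u \ {t}).ncard = 2 := by
      rw [Set.ncard_sdiff_singleton_of_mem htQ, p2]
    have h3 := hX.peo.card t
    intro x hx y hy
    by_contra hxy
    have h4 : insert x (insert y (upper H f u \ {t})) ⊆ upper H f t := by
      intro w hw
      rcases hw with rfl | rfl | hw
      · exact hx.1
      · exact hy.1
      · exact h1 hw
    have h5 := Set.ncard_le_ncard h4 (Set.toFinite _)
    rw [Set.ncard_insert_of_notMem, Set.ncard_insert_of_notMem, h2] at h5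
    · omega
    · exact fun h => hy.2 h.1
    · rintro (h | h)
      · exact hxy h
      · exact hx.2 h.1
  -- the children of `t`
  have honly : ∀ v, par H f v t → v = u ∨ v = u1 := by
    intro v hv
    by_contra h0
    rw [not_or] at h0
    have hDD : Disjoint (dn H f v) (dn H f u) := d6 v u hv hut h0.1
    have hDQ : Disjoint (dn H f v) (upper H f u) := by
      rw [Set.disjoint_left]
      intro w hw hw2
      have e1 := dle v hv w hw
      have e2 := upg u hut w hw2
      omega
    have hDv : Disjoint (dn H f v) (ver P) := by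
      rw [Set.disjoint_left]
      intro w hw hw2
      by_cases h1 : w ∈ dn H f u ∪ upper H f u
      · rcases h1 with h1 | h1
        · exact Set.disjoint_left.1 hDD hw h1
        · exact Set.disjoint_left.1 hDQ hw h1
      · have h2 : w ∈ dn H f u1 := by
          rw [hdn1]
          exact ⟨hw2, h1⟩
        exact Set.disjoint_left.1 (d6 v u1 hv hu1 h0.2) hw h2
    have hSib : Sib G a b n P c J (dn H f u) (upper H f u) (dn H f v) (upper H f v) t := by
      refine ⟨hPc, hch v hv, ?_, ?_, ?_, htQ, (d3 v hv).2.2.1⟩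
      · rw [Set.disjoint_union_right]
        exact ⟨hDD, hDQ⟩
      · rw [Set.disjoint_left]
        intro w hw hw2
        have e1 := dle u hut w hw2
        have e2 := upg v hv w hw
        omega
      · intro x hx y hy
        have h1 : ∀ w, w ∈ upper H f v \ upper H f u → w ∈ upper H f t \ upper H f u := by
          rintro w ⟨hw, hw2⟩
          rcases (d3 v hv).2.2.2 hw with h | h
          · exact absurd (h ▸ htQ) hw2
          · exact ⟨h, hw2⟩
        exact hsub (h1 x hx) (h1 y hy)
    obtain ⟨k, v', hJk, -⟩ := hSB3 V G a b n P c J _ _ _ _ t hX.mc.noh hX.mc.nop hSib hDv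
    have h1 : (Finset.univ : Finset (Fin 3)).card = 1 := by
      rw [← hJ, hJk]
      rfl
    simp at h1
  have hev : ∀ j, G.Adj (a j) (b j) → False := by
    intro j h
    have h1 := (hPc.pr.1.ip j).adj_iff.1 h
    have h2 := hPc.pr.2 j
    rw [h1] at h2
    exact absurd h2 (by decide)
  have hJm : ∀ j, j ∈ J := fun j => by rw [hJ]; exact Finset.mem_univ j
  have hcP : ∀ j, c j ∈ P j := fun j => (hPc.nx j).2
  have haD : ∀ j, a j ∈ dn H f u := fun j => by
    rw [hPc.hD]
    exact ⟨j, hJm j, rfl⟩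
  have hbD : ∀ j, b j ∈ dn H f u1 := fun j => by
    rw [hdn1, hkb]
    exact ⟨j, rfl⟩
  have haf : ∀ j, f (a j) < f t := fun j => dle u hut _ (haD j)
  have hbf : ∀ j, f (b j) < f t := fun j => dle u1 hu1 _ (hbD j)
  -- the neighbours of `t`
  have hN : ∀ w, G.Adj t w → w = a i ∨ w = b i ∨ (w ∈ upper H f t ∧ w ∉ upper H f u) := by
    intro w hw
    have hHw : H.Adj t w := hX.le hw
    rcases lt_trichotomy (f w) (f t) with h | h | h
    · obtain ⟨v, hv, hwv⟩ := d4 w hHw h
      rcases honly v hv with rfl | rfl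
      · left
        rw [hPc.hD] at hwv
        obtain ⟨j, hj, rfl⟩ := hwv
        rcases hPc.nb j hj t hw.symm with h1 | ⟨l, -, h1⟩
        · have h2 : i = j := hPc.pr.1.rung (u := t) (hti ▸ hcP i) (h1 ▸ hcP j)
          rw [h2]
        · have := haf l
          rw [← h1] at this
          exact absurd this (lt_irrefl _)
      · right; left
        rw [hdn1, hkb] at hwv
        obtain ⟨j, rfl⟩ := hwv
        by_cases hij : i = j
        · rw [hij]
        · exfalso
          rw [hti, hPc.pr.1.adj i j hij (c i) (hcP i) (b j) (hPc.pr.1.b_mem j)] at hw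
          rcases hw with ⟨h1, -⟩ | ⟨h1, -⟩
          · exact (p5 i).1 h1
          · exact (p5 i).2 h1
    · exact absurd (hX.peo.inj h) hw.ne'
    · right; right
      refine ⟨⟨hHw, h⟩, ?_⟩
      intro hwQ
      obtain ⟨l, -, hl, -⟩ := p1 t htQ w hwQ hw
      exact hl (hJm l)
  -- the case of a third neighbour
  have hP1 : IsPc G (dn H f u1) (upper H f u1) := hch u1 hu1
  have hbi : ∀ s, s ∈ upper H f t → G.Adj t s → ¬ G.Adj (b i) s := by
    intro s hs1 hts hbs
    obtain ⟨a', b', n', P', c', J', hPc'⟩ := hP1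
    obtain ⟨-, -, -, -, -, -, -, -, -, -, -, -, -, q⟩ := hPF V G a' b' n' P' c' J' _ _ hPc'
    obtain ⟨x, y, z, -, -, -, hxyz⟩ := q (b i) (hbD i)
    have j1 : i + 1 ≠ i := (by decide : ∀ i : Fin 3, i + 1 ≠ i) i
    have j2 : i + 2 ≠ i := (by decide : ∀ i : Fin 3, i + 2 ≠ i) i
    have j3 : i + 1 ≠ i + 2 := (by decide : ∀ i : Fin 3, i + 1 ≠ i + 2) i
    have e1 := (hxyz (b (i + 1))).1 (hPc.pr.1.b_adj j1.symm)
    have e2 := (hxyz (b (i + 2))).1 (hPc.pr.1.b_adj j2.symm)
    have e3 := (hxyz t).1 (by rw [hti]; exact (hcb i).symm)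
    have e4 := (hxyz s).1 hbs
    have g1 := hbf (i + 1)
    have g2 := hbf (i + 2)
    have g3 : f t < f s := hs1.2
    refine four_three e1 e2 e3 e4 ?_ ?_ ?_ ?_ ?_ hts.ne
    · exact hPc.pr.1.ne_of_mem j3 (hPc.pr.1.b_mem _) (hPc.pr.1.b_mem _)
    · intro e
      rw [e] at g1
      exact lt_irrefl _ g1
    · intro e
      rw [e] at g1
      omega
    · intro e
      rw [e] at g2
      exact lt_irrefl _ g2
    · intro e
      rw [e] at g2
      omega
  have hai : ∀ s, s ∈ upper H f t → G.Adj t s → ¬ G.Adj (a i) s := by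
    intro s hs1 hts has
    have g3 : f t < f s := hs1.2
    rcases hPc.nb i hiJ s has with h | ⟨l, -, h⟩
    · rw [← hti] at h
      exact hts.ne h.symm
    · have := haf l
      rw [← h] at this
      omega
  have hex : ∃ z, ∀ w, G.Adj t w → w = a i ∨ w = b i ∨ w = z := by
    by_cases h : ∃ s, s ∈ upper H f t ∧ s ∉ upper H f u
    · obtain ⟨s, hs1, hs2⟩ := h
      refine ⟨s, fun w hw => ?_⟩
      rcases hN w hw with h | h | h
      · exact Or.inl h
      · exact Or.inr (Or.inl h)
      · exact Or.inr (Or.inr (hsub h ⟨hs1, hs2⟩))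
    · refine ⟨a i, fun w hw => ?_⟩
      rcases hN w hw with h1 | h1 | h1
      · exact Or.inl h1
      · exact Or.inr (Or.inl h1)
      · exact absurd ⟨w, h1⟩ h
  obtain ⟨z, hz⟩ := hex
  obtain ⟨x, y, z, hxyz, -, -, hxy, -⟩ := hM3 V G S t (a i) (b i) z hX.mc ht hz
  have tx : G.Adj t x := (hxyz x).2 (Or.inl rfl)
  have ty : G.Adj t y := (hxyz y).2 (Or.inr (Or.inl rfl))
  rcases hN x tx with hx | hx | hx
  · rcases hN y ty with hy | hy | hy
    · exact hxy.ne (hx.trans hy.symm)
    · rw [hx, hy] at hxy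
      exact hev i hxy
    · rw [hx] at hxy
      exact hai y hy.1 ty hxy
  · rcases hN y ty with hy | hy | hy
    · rw [hx, hy] at hxy
      exact hev i hxy.symm
    · exact hxy.ne (hx.trans hy.symm)
    · rw [hx] at hxy
      exact hbi y hy.1 ty hxy
  · rcases hN y ty with hy | hy | hy
    · rw [hy] at hxy
      exact hai x hx.1 tx hxy.symm
    · rw [hy] at hxy
      exact hbi x hx.1 tx hxy.symm
    · exact hxy.ne (hsub hx hy)

end Pool.Agent.H37.ER
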