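import Pool.Agent.H48.ER.Targets

/-!
# er_modules, row STB: a vertex with stable neighbourhood and a prism
-/

set_option autoImplicit false

namespace Pool.Agent.H37.ER

open Pool.Agent.H48.ER

theorem pf_STB (hTRI : T_TRI) (hPLU : T_PLU) (hPLN : T_PLN) (hPL3 : T_PL3) : T_STB := by
  intro V G a b n P c hG hP hc hst i j g h hg hh hcg hch
  by_contra hij
  have noA : ∀ i j : Fin 3, i ≠ j → ¬ (G.Adj c (a i) ∧ G.Adj c (a j)) := fun i j hij h =>
    hst _ (mem_ver (hP.a_mem i)) _ (mem_ver (hP.a_mem j)) h.1 h.2 (hP.a_adj hij)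
  have noB : ∀ i j : Fin 3, i ≠ j → ¬ (G.Adj c (b i) ∧ G.Adj c (b j)) := fun i j hij h =>
    hst _ (mem_ver (hP.b_mem i)) _ (mem_ver (hP.b_mem j)) h.1 h.2 (hP.b_adj hij)
  by_cases hall : ∀ i, ∃ g ∈ P i, G.Adj c g
  · rcases hPL3 V G a b n P c hG hP hc hall with ⟨i, j, hij, h⟩ | ⟨i, j, hij, h⟩
    · exact noA i j hij h
    · exact noB i j hij h
  · have hex : ∃ k, ∀ g ∈ P k, ¬ G.Adj c g := by
      by_contra h0
      apply hall
      intro k
      by_contra h1
      apply h0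
      exact ⟨k, fun g hg hcg => h1 ⟨g, hg, hcg⟩⟩
    obtain ⟨k, hk⟩ := hex
    have hki : k ≠ i := fun e => hk g (e ▸ hg) hcg
    have hkj : k ≠ j := fun e => hk h (e ▸ hh) hch
    have hcov : ∀ m : Fin 3, m = k ∨ m = i ∨ m = j := by omega
    have hver : ∀ w ∈ ver P, G.Adj c w → w ∈ P i ∨ w ∈ P j := by
      rintro w ⟨m, hm⟩ hcw
      rcases hcov m with rfl | rfl | rfl
      · exact absurd hcw (hk w hm)
      · exact Or.inl hm
      · exact Or.inr hm
    have cnr : ∀ i j : Fin 3, (∀ w ∈ ver P, G.Adj c w → w ∈ P i ∨ w ∈ P j) →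
        Cnr G P i j 0 c c {c} := by
      intro i j hv
      refine ⟨IP.zero c, ?_, ?_⟩
      · intro r hr
        rw [Set.mem_singleton_iff.1 hr]
        exact hc
      · intro r hr w hw hrw
        have e : r = c := Set.mem_singleton_iff.1 hr
        rw [e] at hrw
        rcases hv w hw hrw with h | h
        · exact Or.inl ⟨e, h⟩
        · exact Or.inr ⟨e, h⟩
    have hcn : ∀ m : Fin 3, c ∉ P m := fun m hm => hc (mem_ver hm)
    have noAA : ∀ (m : Fin 3) (g g' : V), ¬ AA G c (n m) (a m) (b m) (P m) g g' := by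
      rintro m g g' ⟨i1, j1, R1, R2, h1, h2, -, hU, -, hX, hadj⟩
      have g1 : g ∈ R1 := h1.right_mem
      have g2 : g' ∈ R2 := h2.left_mem
      have e1 : g ∈ P m := hU ▸ Or.inl g1
      have e2 : g' ∈ P m := hU ▸ Or.inr g2
      exact hst g (mem_ver e1) g' (mem_ver e2) ((hadj g e1).2 (Or.inl rfl))
        ((hadj g' e2).2 (Or.inr rfl)) ((hX g g1 g' g2).2 ⟨rfl, rfl⟩)
    have fin : ∀ i j : Fin 3, i ≠ j → ¬ ((G.Adj c (a i) ∧ G.Adj c (a j)) ∨
        (G.Adj c (b i) ∧ G.Adj c (b j))) := by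
      rintro i j hij (h | h)
      · exact noA i j hij h
      · exact noB i j hij h
    rcases hTRI V G (n i) (a i) (b i) c (P i) (hP.ip i) (hcn i) ⟨g, hg, hcg⟩ with
      ⟨u, hu⟩ | ⟨u, u', hu⟩ | ⟨u, u', hu⟩
    · rcases hTRI V G (n j) (a j) (b j) c (P j) (hP.ip j) (hcn j) ⟨h, hh, hch⟩ with
        ⟨w, hw⟩ | ⟨w, w', hw⟩ | ⟨w, w', hw⟩
      · exact fin i j hij (hPLU V G a b n P i j 0 c c u w {c} hG hP hij (cnr i j hver) hu hw)
      · exact noAA j w w' hw
      · exact fin j i (Ne.symm hij) (hPLN V G a b n P j i 0 c c w w' g {c} hG hP (Ne.symm hij)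
          (cnr j i fun w hw hcw => (hver w hw hcw).symm) hw hg hcg)
    · exact noAA i u u' hu
    · exact fin i j hij (hPLN V G a b n P i j 0 c c u u' h {c} hG hP hij (cnr i j hver) hu hh hch)

end Pool.Agent.H37.ER
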